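import Pool.Agent.H99.Cover.Defs
import Pool.Agent.H17.LinePoly

set_option autoImplicit false

/-!
# Basic facts on the total space, and a criterion for non-hyperbolicity
-/

open MvPolynomial Topology Filter

namespace Pool.Agent.H99.Cover

variable {N : ℕ} {ι : Type}

lemma eval_smul' {P : MvPolynomial (Fin (N + 1)) ℂ} {d : ℕ} (hP : P.IsHomogeneous d)
    {c : ℂ} {x x' : Fin (N + 1) → ℂ} (h : ∀ i, x' i = c * x i) : eval x' P = c ^ d * eval x P := by
  have : x' = fun i => c * x i := funext h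
  rw [this]
  exact Pool.Agent.H17.eval_smul_of_isHomogeneous hP c x

/-- Membership in the cover can be tested on one system of homogeneous coordinates. -/
lemma mk_mem_coverSet {κ : Type} {e m : ι → ℕ} {G : κ → MvPolynomial (Fin (N + 1)) ℂ}
    {F : ι → MvPolynomial (Fin (N + 1)) ℂ} {H : MvPolynomial (Fin (N + 1)) ℂ}
    {d : κ → ℕ} {δ : ℕ} (hG : ∀ i, (G i).IsHomogeneous (d i))
    (hF : ∀ j, (F j).IsHomogeneous (m j * e j)) (hH : H.IsHomogeneous δ)
    (q : Coord N ι) (hq : q.1 ≠ 0) :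
    mk e q hq ∈ coverSet e m G F H ↔
      (∀ i, eval q.1 (G i) = 0) ∧ (∀ j, q.2 j ^ m j = eval q.1 (F j)) ∧ eval q.1 H ≠ 0 := by
  constructor
  · intro h
    exact h q hq rfl
  · rintro ⟨h1, h2, h3⟩ q' hq' heq
    rw [mk_eq_mk] at heq
    obtain ⟨c, hc, hx, hy⟩ := heq
    refine ⟨fun i => ?_, fun j => ?_, ?_⟩
    · rw [eval_smul' (hG i) hx, h1 i, mul_zero]
    · rw [eval_smul' (hF j) hx, hy j, mul_pow, h2 j, ← pow_mul, mul_comm (e j) (m j)]
    · rw [eval_smul' hH hx]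
      exact mul_ne_zero (pow_ne_zero _ hc) h3

/-- Limits of equivalent coordinates are equivalent. -/
lemma rel_of_tendsto {α : Type*} {l : Filter α} [l.NeBot] {e : ι → ℕ} {φ ψ : α → Coord N ι}
    {a b : Coord N ι} (hφ : Tendsto φ l (𝓝 a)) (hψ : Tendsto ψ l (𝓝 b)) (ha : a.1 ≠ 0)
    (hb : b.1 ≠ 0) (h : ∀ᶠ z in l, Rel e (φ z) (ψ z)) : Rel e a b := by
  obtain ⟨i, hi⟩ : ∃ i, a.1 i ≠ 0 := by
    by_contra hcon
    push Not at hcon
    exact ha (funext hcon)
  have hφ1 : ∀ k, Tendsto (fun z => (φ z).1 k) l (𝓝 (a.1 k)) := fun k =>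
    (tendsto_pi_nhds.1 ((continuous_fst.tendsto a).comp hφ)) k
  have hψ1 : ∀ k, Tendsto (fun z => (ψ z).1 k) l (𝓝 (b.1 k)) := fun k =>
    (tendsto_pi_nhds.1 ((continuous_fst.tendsto b).comp hψ)) k
  have hφ2 : ∀ j, Tendsto (fun z => (φ z).2 j) l (𝓝 (a.2 j)) := fun j =>
    (tendsto_pi_nhds.1 ((continuous_snd.tendsto a).comp hφ)) j
  have hψ2 : ∀ j, Tendsto (fun z => (ψ z).2 j) l (𝓝 (b.2 j)) := fun j =>
    (tendsto_pi_nhds.1 ((continuous_snd.tendsto b).comp hψ)) j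
  have hne : ∀ᶠ z in l, (φ z).1 i ≠ 0 := (hφ1 i).eventually_ne hi
  have hc : Tendsto (fun z => (ψ z).1 i / (φ z).1 i) l (𝓝 (b.1 i / a.1 i)) :=
    (hψ1 i).div (hφ1 i) hi
  have hev : ∀ᶠ z in l, (∀ k, (ψ z).1 k = ((ψ z).1 i / (φ z).1 i) * (φ z).1 k) ∧
      ∀ j, (ψ z).2 j = ((ψ z).1 i / (φ z).1 i) ^ e j * (φ z).2 j := by
    filter_upwards [h, hne] with z hz hz'
    obtain ⟨c, -, h1, h2⟩ := hz
    have hcz : (ψ z).1 i / (φ z).1 i = c := by
      rw [h1 i, mul_div_assoc, div_self hz', mul_one]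
    rw [hcz]
    exact ⟨h1, h2⟩
  have e1 : ∀ k, b.1 k = (b.1 i / a.1 i) * a.1 k := by
    intro k
    refine tendsto_nhds_unique ((hψ1 k).congr' ?_) (hc.mul (hφ1 k))
    filter_upwards [hev] with z hz using hz.1 k
  have e2 : ∀ j, b.2 j = (b.1 i / a.1 i) ^ e j * a.2 j := by
    intro j
    refine tendsto_nhds_unique ((hψ2 j).congr' ?_) ((hc.pow (e j)).mul (hφ2 j))
    filter_upwards [hev] with z hz using hz.2 j
  refine ⟨b.1 i / a.1 i, ?_, e1, e2⟩
  intro h0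
  apply hb
  funext k
  rw [e1 k, h0, zero_mul]
  rfl

/-- The exponential of the inverse takes every non-zero value near zero. -/
lemma exists_seq_exp_inv (σ : ℂ) (hσ : σ ≠ 0) :
    ∃ zs : ℕ → ℂ, Tendsto zs atTop (𝓝 0) ∧ ∀ᶠ n in atTop, zs n ≠ 0 ∧ Complex.exp (zs n)⁻¹ = σ := by
  have h : Tendsto (fun n : ℕ => Complex.log σ + n * (2 * Real.pi * Complex.I)) atTop
      (Bornology.cobounded ℂ) := by
    rw [← tendsto_norm_atTop_iff_cobounded]
    have h1 : Tendsto (fun n : ℕ => (n : ℝ) * (2 * Real.pi) - ‖Complex.log σ‖) atTop atTop := by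
      refine tendsto_atTop_add_const_right _ _ ?_
      exact (tendsto_natCast_atTop_atTop).atTop_mul_const (by positivity)
    refine tendsto_atTop_mono ?_ h1
    intro n
    have h2 : ‖(n : ℂ) * (2 * Real.pi * Complex.I)‖ = n * (2 * Real.pi) := by
      rw [norm_mul, norm_mul, norm_mul]
      simp [Real.pi_pos.le, abs_of_nonneg]
    have h3 : ‖(n : ℂ) * (2 * Real.pi * Complex.I)‖ ≤
        ‖Complex.log σ + n * (2 * Real.pi * Complex.I)‖ + ‖Complex.log σ‖ := by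
      have := norm_sub_le (Complex.log σ + n * (2 * Real.pi * Complex.I)) (Complex.log σ)
      simpa using this
    linarith
  refine ⟨fun n => (Complex.log σ + n * (2 * Real.pi * Complex.I))⁻¹,
    Filter.tendsto_inv₀_cobounded.comp h, ?_⟩
  have hne : ∀ᶠ n : ℕ in atTop, Complex.log σ + n * (2 * Real.pi * Complex.I) ≠ 0 := by
    have h5 := h.eventually (Bornology.eventually_ne_cobounded (0 : ℂ))
    exact h5
  filter_upwards [hne] with n hn
  refine ⟨inv_ne_zero hn, ?_⟩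
  rw [inv_inv, Complex.exp_add, Complex.exp_log hσ, Complex.exp_nat_mul_two_pi_mul_I, mul_one]

/-- If the points of `X` outside any proper Zariski closed subset include one which lies on a
non-constant entire curve, then `X` is not pseudo Brody hyperbolic and not pseudo Picard
hyperbolic. -/
theorem not_hyperbolic [Fintype ι] {e : ι → ℕ} (X : Set (Tot N e))
    (hX : ∀ Ξ, ZariskiClosedIn X Ξ → Ξ ≠ X → ∃ f : ℂ → Tot N e, HolomorphicInto f Set.univ ∧
      (∀ z, f z ∈ X) ∧ (∃ z w, f z ≠ f w) ∧ f 0 ∉ Ξ) :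
    ¬ PseudoBrodyHyperbolic X ∧ ¬ PseudoPicardHyperbolic X := by
  constructor
  · rintro ⟨Ξ, hΞ, hne, hall⟩
    obtain ⟨f, hf, hfX, hnc, hf0⟩ := hX Ξ hΞ hne
    exact hf0 (hall f hf hfX hnc 0)
  · rintro ⟨Ξ, hΞ, hne, hall⟩
    obtain ⟨f, hf, hfX, hnc, hf0⟩ := hX Ξ hΞ hne
    obtain ⟨w, hw⟩ : ∃ w, f w ≠ f 0 := by
      by_contra hcon
      push Not at hcon
      obtain ⟨z, w, hzw⟩ := hnc
      exact hzw ((hcon z).trans (hcon w).symm)
    have hw0 : w ≠ 0 := by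
      rintro rfl
      exact hw rfl
    -- the map with an essential singularity
    set h : ℂ → ℂ := fun z => 2 * w + Complex.exp z⁻¹ with hh
    have hhan : ∀ z : ℂ, z ≠ 0 → AnalyticAt ℂ h z := by
      intro z hz
      exact analyticAt_const.add (analyticAt_inv hz).cexp
    have hhol : HolomorphicInto (fun z => f (h z)) puncturedDisc := by
      intro z₀ hz₀
      have hz0 : z₀ ≠ 0 := by
        intro h0
        exact hz₀.2 (by simp [h0])
      obtain ⟨φ, hφ, hφf⟩ := hf (h z₀) (Set.mem_univ _)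
      refine ⟨fun z => φ (h z), ?_, ?_⟩
      · exact AnalyticAt.fun_comp hφ (hhan z₀ hz0)
      · exact (hhan z₀ hz0).continuousAt.tendsto.eventually hφf
    have key : ∀ σ : ℂ, σ ≠ 0 → ∃ zs : ℕ → ℂ, Tendsto zs atTop (𝓝 0) ∧
        ∀ᶠ n in atTop, zs n ∈ puncturedDisc ∧ h (zs n) = 2 * w + σ := by
      intro σ hσ
      obtain ⟨zs, h1, h2⟩ := exists_seq_exp_inv σ hσ
      refine ⟨zs, h1, ?_⟩
      filter_upwards [h2, h1.eventually (Metric.ball_mem_nhds (0 : ℂ) one_pos)] with n hn hb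
      exact ⟨⟨hb, by simpa using hn.1⟩, by simp only [hh]; rw [hn.2]⟩
    obtain ⟨zs, hzs, hzs'⟩ := key (-(2 * w)) (neg_ne_zero.2 (mul_ne_zero two_ne_zero hw0))
    obtain ⟨zs₂, hzs₂, hzs₂'⟩ := key (-w) (neg_ne_zero.2 hw0)
    obtain ⟨n₀, hn₀, hn₀'⟩ := hzs'.exists
    obtain ⟨g, hg, hgf⟩ := hall (fun z => f (h z)) hhol (fun z _ => hfX _)
      ⟨zs n₀, hn₀, by
        rw [hn₀', add_neg_cancel]
        exact hf0⟩
    obtain ⟨φ, hφ, hφg⟩ := hg 0 (by simp)
    obtain ⟨hφ0, -⟩ := hφg.self_of_nhds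
    -- both values are equivalent to `φ 0`
    have hlim : ∀ (zs : ℕ → ℂ) (u : ℂ), Tendsto zs atTop (𝓝 0) →
        (∀ᶠ n in atTop, zs n ∈ puncturedDisc ∧ h (zs n) = u) → f u = mk e (φ 0) hφ0 := by
      intro zs u h1 h2
      obtain ⟨q, hq, hqf⟩ := exists_mk (f u)
      rw [hqf, mk_eq_mk]
      refine (rel_of_tendsto (φ := fun n => φ (zs n)) (ψ := fun _ => q) (l := atTop)
        (hφ.continuousAt.tendsto.comp h1) tendsto_const_nhds hφ0 hq ?_).symm
      filter_upwards [h2, h1.eventually hφg] with n hn hn'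
      obtain ⟨hnz, hgn⟩ := hn'
      rw [hgf _ hn.1, hn.2, hqf, mk_eq_mk] at hgn
      exact hgn.symm
    have hA := hlim zs 0 hzs (by
      filter_upwards [hzs'] with n hn
      exact ⟨hn.1, by rw [hn.2, add_neg_cancel]⟩)
    have hB := hlim zs₂ w hzs₂ (by
      filter_upwards [hzs₂'] with n hn
      exact ⟨hn.1, by rw [hn.2]; ring⟩)
    exact hw (hB.trans hA.symm)

/-- The vanishing locus of the coordinate `y j`. -/
lemma vanishesAt_y {e : ι → ℕ} (j : ι) (q : Coord N ι) (hq : q.1 ≠ 0) :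
    VanishesAt (X (Sum.inr j)) (mk e q hq) ↔ q.2 j = 0 := by
  constructor
  · intro h
    simpa using h q hq rfl
  · intro h q' hq' heq
    rw [mk_eq_mk] at heq
    obtain ⟨c, _, _, hy⟩ := heq
    simp [hy j, h]

end Pool.Agent.H99.Cover
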