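import Mathlib

set_option autoImplicit false

/-!
# Hyperbolicity notions for multiple cyclic covers

The ambient space is the total space of the vector bundle `⊕ O (e j)` over `ℙ^N (ℂ)`, that is, the
open subset `x ≠ 0` of the weighted projective space with coordinates `x 0, …, x N` of weight one
and `y j` of weight `e j`.
-/

open MvPolynomial Topology

namespace Pool.Agent.H99.Cover

variable {N : ℕ} {ι : Type}

/-- Homogeneous coordinates `(x, y)`. -/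
abbrev Coord (N : ℕ) (ι : Type) : Type := (Fin (N + 1) → ℂ) × (ι → ℂ)

/-- The relation `(x, y) ~ (c x, c ^ (e j) y j)`, for `c ≠ 0`. -/
def Rel (e : ι → ℕ) (q q' : Coord N ι) : Prop :=
  ∃ c : ℂ, c ≠ 0 ∧ (∀ i, q'.1 i = c * q.1 i) ∧ ∀ j, q'.2 j = c ^ e j * q.2 j

lemma Rel.refl (e : ι → ℕ) (q : Coord N ι) : Rel e q q :=
  ⟨1, one_ne_zero, by simp, by simp⟩

lemma Rel.symm {e : ι → ℕ} {q q' : Coord N ι} (h : Rel e q q') : Rel e q' q := by
  obtain ⟨c, hc, h1, h2⟩ := h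
  refine ⟨c⁻¹, inv_ne_zero hc, fun i => ?_, fun j => ?_⟩
  · rw [h1 i, inv_mul_cancel_left₀ hc]
  · rw [h2 j, inv_pow, inv_mul_cancel_left₀ (pow_ne_zero _ hc)]

lemma Rel.trans {e : ι → ℕ} {q q' q'' : Coord N ι} (h : Rel e q q') (h' : Rel e q' q'') :
    Rel e q q'' := by
  obtain ⟨c, hc, h1, h2⟩ := h
  obtain ⟨c', hc', h1', h2'⟩ := h'
  refine ⟨c' * c, mul_ne_zero hc' hc, fun i => ?_, fun j => ?_⟩
  · rw [h1' i, h1 i, mul_assoc]
  · rw [h2' j, h2 j, mul_pow, mul_assoc]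

/-- Homogeneous coordinates with `x ≠ 0`. -/
abbrev CoordNZ (N : ℕ) (ι : Type) : Type := {q : Coord N ι // q.1 ≠ 0}

/-- The equivalence relation on homogeneous coordinates. -/
def relSetoid (N : ℕ) (e : ι → ℕ) : Setoid (CoordNZ N ι) where
  r q q' := Rel e q.1 q'.1
  iseqv := ⟨fun q => Rel.refl e q.1, fun h => h.symm, fun h h' => h.trans h'⟩

/-- The total space of `⊕ O (e j)` over `ℙ^N (ℂ)`. -/
def Tot (N : ℕ) (e : ι → ℕ) : Type := Quotient (relSetoid N e)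

/-- The point with homogeneous coordinates `q`. -/
def mk (e : ι → ℕ) (q : Coord N ι) (h : q.1 ≠ 0) : Tot N e := Quotient.mk (relSetoid N e) ⟨q, h⟩

lemma mk_eq_mk {e : ι → ℕ} {q q' : Coord N ι} {h : q.1 ≠ 0} {h' : q'.1 ≠ 0} :
    mk e q h = mk e q' h' ↔ Rel e q q' :=
  ⟨fun H => Quotient.exact (s := relSetoid N e) H, fun H => Quotient.sound (s := relSetoid N e) H⟩

lemma exists_mk {e : ι → ℕ} (x : Tot N e) : ∃ (q : Coord N ι) (h : q.1 ≠ 0), x = mk e q h := by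
  obtain ⟨⟨q, h⟩, rfl⟩ := Quotient.exists_rep x
  exact ⟨q, h, rfl⟩

/-- `f` is holomorphic on `U ⊆ ℂ` as a map into the total space: near every point of `U` it is
given by holomorphic homogeneous coordinates `(x, y)` with `x ≠ 0`. -/
def HolomorphicInto {e : ι → ℕ} [Fintype ι] (f : ℂ → Tot N e) (U : Set ℂ) : Prop :=
  ∀ z₀ ∈ U, ∃ φ : ℂ → Coord N ι, AnalyticAt ℂ φ z₀ ∧
    ∀ᶠ z in 𝓝 z₀, ∃ h : (φ z).1 ≠ 0, f z = mk e (φ z) h

/-- The weights of the variables `x i` and `y j`. -/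
def weights (N : ℕ) (e : ι → ℕ) : Fin (N + 1) ⊕ ι → ℕ := Sum.elim (fun _ => 1) e

/-- The polynomial `P (x, y)` vanishes at the point `x`.  For weighted homogeneous `P` this does
not depend on the homogeneous coordinates. -/
def VanishesAt {e : ι → ℕ} (P : MvPolynomial (Fin (N + 1) ⊕ ι) ℂ) (x : Tot N e) : Prop :=
  ∀ (q : Coord N ι) (h : q.1 ≠ 0), x = mk e q h → eval (Sum.elim q.1 q.2) P = 0

/-- `Ξ` is a Zariski closed subset of the subset `X` of the total space. -/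
def ZariskiClosedIn {e : ι → ℕ} (X Ξ : Set (Tot N e)) : Prop :=
  ∃ S : Set (MvPolynomial (Fin (N + 1) ⊕ ι) ℂ),
    (∀ P ∈ S, ∃ n, IsWeightedHomogeneous (weights N e) P n) ∧
    Ξ = {x | x ∈ X ∧ ∀ P ∈ S, VanishesAt P x}

/-- `X` is irreducible in the Zariski topology. -/
def ZariskiIrreducible {e : ι → ℕ} (X : Set (Tot N e)) : Prop :=
  X.Nonempty ∧ ∀ Ξ₁ Ξ₂ : Set (Tot N e), ZariskiClosedIn X Ξ₁ → ZariskiClosedIn X Ξ₂ →
    X = Ξ₁ ∪ Ξ₂ → Ξ₁ = X ∨ Ξ₂ = X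

/-- There is a non-constant holomorphic map `f : ℂ → X` with `f 0 = x`. -/
def EntireCurveThrough {e : ι → ℕ} [Fintype ι] (X : Set (Tot N e)) (x : Tot N e) : Prop :=
  ∃ f : ℂ → Tot N e, HolomorphicInto f Set.univ ∧ (∀ z, f z ∈ X) ∧ (∃ z w, f z ≠ f w) ∧ f 0 = x

/-- `X` is pseudo Brody hyperbolic: there is a Zariski closed proper subset `Ξ` of `X` that
contains the image of every non-constant holomorphic map `ℂ → X`. -/
def PseudoBrodyHyperbolic {e : ι → ℕ} [Fintype ι] (X : Set (Tot N e)) : Prop :=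
  ∃ Ξ : Set (Tot N e), ZariskiClosedIn X Ξ ∧ Ξ ≠ X ∧
    ∀ f : ℂ → Tot N e, HolomorphicInto f Set.univ → (∀ z, f z ∈ X) → (∃ z w, f z ≠ f w) →
      ∀ z, f z ∈ Ξ

/-- The punctured open unit disc. -/
def puncturedDisc : Set ℂ := Metric.ball 0 1 \ {0}

/-- `X` is pseudo Picard hyperbolic: there is a Zariski closed proper subset `Ξ` of `X` such that
every holomorphic map from the punctured unit disc to `X` whose image is not contained in `Ξ`
extends to a holomorphic map from the unit disc to the total space (and hence to the closure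
of `X`). -/
def PseudoPicardHyperbolic {e : ι → ℕ} [Fintype ι] (X : Set (Tot N e)) : Prop :=
  ∃ Ξ : Set (Tot N e), ZariskiClosedIn X Ξ ∧ Ξ ≠ X ∧
    ∀ f : ℂ → Tot N e, HolomorphicInto f puncturedDisc → (∀ z ∈ puncturedDisc, f z ∈ X) →
      (∃ z ∈ puncturedDisc, f z ∉ Ξ) →
      ∃ g : ℂ → Tot N e, HolomorphicInto g (Metric.ball 0 1) ∧ ∀ z ∈ puncturedDisc, g z = f z

/-- The multiple cyclic cover `y j ^ m j = F j (x)` of the variety `G i (x) = 0` in `ℙ^N`, without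
the points where the form `H (x)` vanishes. -/
def coverSet {κ : Type} (e m : ι → ℕ) (G : κ → MvPolynomial (Fin (N + 1)) ℂ)
    (F : ι → MvPolynomial (Fin (N + 1)) ℂ) (H : MvPolynomial (Fin (N + 1)) ℂ) :
    Set (Tot N e) :=
  {x | ∀ (q : Coord N ι) (h : q.1 ≠ 0), x = mk e q h →
    (∀ i, eval q.1 (G i) = 0) ∧ (∀ j, q.2 j ^ m j = eval q.1 (F j)) ∧ eval q.1 H ≠ 0}

/-- The admissible sets `J` of special indices, where `s = ∑ d i + ∑ (m j - 1) e j`. -/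
def SpecialIndices (e m : ι → ℕ) (N s δ : ℕ) (J : Set ι) : Prop :=
  (J = ∅ ∧ (2 ≤ δ ∨ s + 1 ≤ N)) ∨
  (∃ j, J = {j} ∧ ((δ = 1 ∧ 2 ∣ m j ∧ 1 ≤ e j) ∨
    (δ = 0 ∧ ((2 ∣ m j ∧ 2 ≤ e j) ∨ (3 ∣ m j ∧ 1 ≤ e j) ∨ (4 ∣ m j ∧ 1 ≤ e j))))) ∨
  (∃ j₁ j₂, j₁ ≠ j₂ ∧ J = {j₁, j₂} ∧ δ = 0 ∧ 2 ∣ m j₁ ∧ 2 ∣ m j₂ ∧ 1 ≤ e j₁ ∧ 1 ≤ e j₂)

end Pool.Agent.H99.Cover
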